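import Pool.Agent.P8H81.LP.Stm2
import Pool.Agent.P8H75.LP.Sum

/-! Project LPB (helper81), package LOW (helper45): lower bound of the sums of the correlation
over boxes. -/

set_option autoImplicit false

open Filter
open Finset hiding box

namespace Pool.Agent.P8H45.LPB

open Pool.Agent.P8H81.LP (box S_LOW)
open Pool.Agent.P8H75.LP (mem_box quad rpow_comp log_pos')

/-- the radius for the maximum norm -/
abbrev rd (x : Fin 2 → ℤ) : ℕ := Pool.Agent.P8H75.LP.rad x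

theorem pointLow {a : ℝ} {hc : (Fin 2 → ℤ) → ℝ} (h0 : ∀ x, 0 ≤ hc x) {x : Fin 2 → ℤ}
    (hr : 3 ≤ rd x) (h : 1 / 2 < hc x * ((x 0 : ℝ) ^ 2 + (x 1 : ℝ) ^ 2) /
      (Real.log (√((x 0 : ℝ) ^ 2 + (x 1 : ℝ) ^ 2))) ^ a) :
    Real.log (2 + rd x) ^ a ≤ 4 * 2 ^ |a| * (rd x : ℝ) ^ 2 * hc x := by
  obtain ⟨q1, q2⟩ := quad x
  set q : ℝ := (x 0 : ℝ) ^ 2 + (x 1 : ℝ) ^ 2 with hq
  set r : ℝ := (rd x : ℝ) with hrd
  have hr3 : (3 : ℝ) ≤ r := by
    rw [hrd]
    exact_mod_cast hr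
  have hr0 : 0 < r := by linarith
  have q1' : r ^ 2 ≤ q := q1
  have q2' : q ≤ 2 * r ^ 2 := q2
  have hs1 : r ≤ √q := Real.le_sqrt_of_sq_le q1'
  have hL : 0 < Real.log (2 + r) := log_pos' (rd x)
  have hl1 : Real.log (2 + r) / 2 ≤ Real.log (√q) := by
    have h1 : Real.log (2 + r) ≤ Real.log (r ^ 2) := Real.log_le_log (by linarith) (by nlinarith)
    rw [Real.log_pow] at h1
    have h2 : Real.log r ≤ Real.log (√q) := Real.log_le_log hr0 hs1
    push_cast at h1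
    linarith
  have hl2 : Real.log (√q) ≤ 2 * Real.log (2 + r) := by
    have h1 : √q ≤ (2 + r) ^ 2 := by
      rw [Real.sqrt_le_left (by positivity)]
      nlinarith [sq_nonneg r, mul_pos hr0 hr0, pow_pos hr0 3, pow_pos hr0 4]
    have h2 := Real.log_le_log (by linarith) h1
    rw [Real.log_pow] at h2
    push_cast at h2
    linarith
  have hl0 : 0 < Real.log (√q) := by linarith
  have hp : 0 < Real.log (√q) ^ a := Real.rpow_pos_of_pos hl0 a
  rw [lt_div_iff₀ hp] at h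
  have h1 : Real.log (2 + r) ^ a ≤ 2 ^ |a| * Real.log (√q) ^ a :=
    rpow_comp a hl0 (by linarith) (by linarith)
  have h2 : (0 : ℝ) < 2 ^ |a| := by positivity
  calc Real.log (2 + r) ^ a ≤ 2 ^ |a| * Real.log (√q) ^ a := h1
    _ ≤ 2 ^ |a| * (2 * (hc x * q)) := mul_le_mul_of_nonneg_left (by linarith) h2.le
    _ ≤ 2 ^ |a| * (2 * (hc x * (2 * r ^ 2))) := by
        have := mul_le_mul_of_nonneg_left q2' (h0 x)
        exact mul_le_mul_of_nonneg_left (by linarith) h2.le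
    _ = _ := by ring

theorem harm {m n : ℕ} (hm : 1 ≤ m) (hn : m ≤ n) :
    Real.log n - Real.log m ≤ ∑ i ∈ Ico m n, 1 / (i : ℝ) := by
  induction n, hn using Nat.le_induction with
  | base => simp
  | succ n hn ih =>
    rw [sum_Ico_succ_top hn]
    have hn0 : (0 : ℝ) < n := by
      have : 0 < n := by omega
      exact_mod_cast this
    have h1 := Real.log_le_sub_one_of_pos (x := ((n + 1 : ℕ) : ℝ) / n) (by positivity)
    rw [Real.log_div (by positivity) hn0.ne'] at h1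
    have h2 : ((n + 1 : ℕ) : ℝ) / n - 1 = 1 / n := by
      push_cast
      field_simp
      ring
    rw [h2] at h1
    linarith

theorem low : S_LOW := by
  classical
  intro a ha hc h0 hlim
  obtain ⟨M, hM⟩ : ∃ M : ℕ, ∀ z : Fin 2 → ℤ, M ≤ rd z →
      Real.log (2 + rd z) ^ a ≤ 4 * 2 ^ |a| * (rd z : ℝ) ^ 2 * hc z := by
    have hev : ∀ᶠ z : Fin 2 → ℤ in cofinite,
        Real.log (2 + rd z) ^ a ≤ 4 * 2 ^ |a| * (rd z : ℝ) ^ 2 * hc z := by
      have h1 : ∀ᶠ x : Fin 2 → ℤ in cofinite, 3 ≤ rd x := by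
        rw [eventually_cofinite]
        refine (box 2).finite_toSet.subset fun x hx => ?_
        rw [mem_coe, mem_box]
        have : ¬ 3 ≤ Pool.Agent.P8H75.LP.rad x := hx
        omega
      have h2 := hlim.eventually_const_lt (show (1 / 2 : ℝ) < 1 by norm_num)
      filter_upwards [h1, h2] with x hx1 hx2
      exact pointLow h0 hx1 hx2
    rw [eventually_cofinite] at hev
    refine ⟨hev.toFinset.sup rd + 1, fun z hz => ?_⟩
    by_contra hcon
    have : rd z ≤ hev.toFinset.sup rd :=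
      Finset.le_sup (f := rd) (by rw [Set.Finite.mem_toFinset]; exact hcon)
    omega
  have h2a : (0 : ℝ) < 2 ^ |a| := by positivity
  refine ⟨1 / (16 * 2 ^ |a| * 2 ^ |a|), max 16 ((M + 1) ^ 2), by positivity,
    fun R hR x hx => ?_⟩
  have hR16 : 16 ≤ R := le_trans (le_max_left _ _) hR
  have hRM : (M + 1) ^ 2 ≤ R := le_trans (le_max_right _ _) hR
  obtain ⟨m, hm⟩ : ∃ m, m = Nat.sqrt R + 1 := ⟨_, rfl⟩
  have hsq : Nat.sqrt R ^ 2 ≤ R := Nat.sqrt_le' R
  have hs4 : 4 ≤ Nat.sqrt R := by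
    rw [Nat.le_sqrt']
    omega
  have hmM : M ≤ m := by
    have : M + 1 ≤ Nat.sqrt R := by
      rw [Nat.le_sqrt']
      exact hRM
    omega
  have hm1 : R < m ^ 2 := by
    rw [hm]
    exact Nat.lt_succ_sqrt' R
  have hmR : m ≤ R := by
    rw [hm]
    nlinarith
  have hR16' : (16 : ℝ) ≤ R := by exact_mod_cast hR16
  have hlR : 0 < Real.log R := Real.log_pos (by linarith)
  have hm0 : (0 : ℝ) < m := by
    have : 0 < m := by omega
    exact_mod_cast this
  have hlm : Real.log m ≤ 3 / 4 * Real.log R := by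
    have h1 : (m : ℝ) ^ 4 ≤ (R : ℝ) ^ 3 := by
      have h2 : m ^ 2 ≤ 4 * R := by
        rw [hm]
        nlinarith
      have h3 : m ^ 4 ≤ R ^ 3 := by
        calc m ^ 4 = (m ^ 2) ^ 2 := by ring
          _ ≤ (4 * R) ^ 2 := Nat.pow_le_pow_left h2 2
          _ = 16 * R ^ 2 := by ring
          _ ≤ R * R ^ 2 := Nat.mul_le_mul_right _ hR16
          _ = R ^ 3 := by ring
      exact_mod_cast h3
    have h2 := Real.log_le_log (by positivity) h1
    rw [Real.log_pow, Real.log_pow] at h2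
    push_cast at h2
    linarith
  -- the harmonic sum
  have hharm : 1 / 4 * Real.log R ≤ ∑ i ∈ Ico m (R + 1), 1 / (i : ℝ) := by
    have h1 := harm (m := m) (n := R + 1) (by omega) (by omega)
    have h2 : Real.log R ≤ Real.log ((R + 1 : ℕ) : ℝ) :=
      Real.log_le_log (by linarith) (by push_cast; linarith)
    linarith
  -- the quadrant
  obtain ⟨s, hs⟩ : ∃ s : Fin 2 → ℤ, ∀ i, (0 ≤ x i ∧ s i = 1) ∨ (x i < 0 ∧ s i = -1) := by
    refine ⟨fun i => if 0 ≤ x i then 1 else -1, fun i => ?_⟩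
    by_cases h : 0 ≤ x i
    · left
      exact ⟨h, by simp [h]⟩
    · right
      exact ⟨by omega, by simp [h]⟩
  rw [mem_box] at hx
  have hxx : (x 0).natAbs ≤ R ∧ (x 1).natAbs ≤ R := by
    unfold Pool.Agent.P8H75.LP.rad at hx
    exact max_le_iff.mp hx
  obtain ⟨e, he⟩ : ∃ e : (Σ _ : ℕ, ℕ) → Fin 2 → ℤ,
      ∀ p, e p 0 = x 0 - s 0 * p.1 ∧ e p 1 = x 1 - s 1 * p.2 :=
    ⟨fun p => ![x 0 - s 0 * p.1, x 1 - s 1 * p.2], fun p => ⟨rfl, rfl⟩⟩
  obtain ⟨S, hS⟩ : ∃ S : Finset (Σ _ : ℕ, ℕ), S = (Ico m (R + 1)).sigma (fun i => range i) :=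
    ⟨_, rfl⟩
  have hSm : ∀ p, p ∈ S ↔ (m ≤ p.1 ∧ p.1 < R + 1) ∧ p.2 < p.1 := by
    intro p
    rw [hS, mem_sigma, mem_Ico, mem_range]
  have hinj : Set.InjOn e S := by
    intro p _ p' _ hpp
    have e0 : e p 0 = e p' 0 := by rw [hpp]
    have e1 : e p 1 = e p' 1 := by rw [hpp]
    rw [(he p).1, (he p').1] at e0
    rw [(he p).2, (he p').2] at e1
    obtain ⟨i, j⟩ := p
    obtain ⟨i', j'⟩ := p'
    simp only at e0 e1
    have hi : i = i' := by
      rcases hs 0 with ⟨_, h⟩ | ⟨_, h⟩ <;> rw [h] at e0 <;> omega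
    have hj : j = j' := by
      rcases hs 1 with ⟨_, h⟩ | ⟨_, h⟩ <;> rw [h] at e1 <;> omega
    rw [hi, hj]
  have hsub : S.image e ⊆ box R := by
    intro y hy
    rw [mem_image] at hy
    obtain ⟨p, hp, rfl⟩ := hy
    rw [hSm] at hp
    rw [mem_box]
    unfold Pool.Agent.P8H75.LP.rad
    rw [(he p).1, (he p).2, max_le_iff]
    constructor
    · rcases hs 0 with ⟨h1, h⟩ | ⟨h1, h⟩ <;> rw [h] <;> omega
    · rcases hs 1 with ⟨h1, h⟩ | ⟨h1, h⟩ <;> rw [h] <;> omega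
  have hrad : ∀ p ∈ S, rd (x - e p) = p.1 := by
    intro p hp
    rw [hSm] at hp
    unfold rd Pool.Agent.P8H75.LP.rad
    rw [Pi.sub_apply, Pi.sub_apply, (he p).1, (he p).2]
    have h1 : (x 0 - (x 0 - s 0 * p.1)).natAbs = p.1 := by
      rcases hs 0 with ⟨h1, h⟩ | ⟨h1, h⟩ <;> rw [h] <;> omega
    have h2 : (x 1 - (x 1 - s 1 * p.2)).natAbs = p.2 := by
      rcases hs 1 with ⟨h1, h⟩ | ⟨h1, h⟩ <;> rw [h] <;> omega
    rw [h1, h2]
    omega
  have hrow : ∀ i ∈ Ico m (R + 1), 1 / (4 * 2 ^ |a| * 2 ^ |a|) * Real.log R ^ a * (1 / (i : ℝ)) ≤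
      ∑ j ∈ range i, hc (x - e ⟨i, j⟩) := by
    intro i hi
    rw [mem_Ico] at hi
    have hi0 : (0 : ℝ) < i := by
      have : 0 < i := by omega
      exact_mod_cast this
    have hl1 : 0 < Real.log (2 + (i : ℝ)) := log_pos' i
    have hb1 : Real.log (2 + (i : ℝ)) / 2 ≤ Real.log R := by
      have h1 : Real.log (2 + (i : ℝ)) ≤ Real.log ((R : ℝ) ^ 2) := by
        refine Real.log_le_log (by positivity) ?_
        have : (i : ℝ) ≤ R := by
          have : i ≤ R := by omega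
          exact_mod_cast this
        nlinarith
      rw [Real.log_pow] at h1
      push_cast at h1
      linarith
    have hb2 : Real.log R ≤ 2 * Real.log (2 + (i : ℝ)) := by
      have h1 : Real.log R ≤ Real.log ((2 + (i : ℝ)) ^ 2) := by
        refine Real.log_le_log (by linarith) ?_
        have h3 : R ≤ (2 + i) ^ 2 := by
          refine hm1.le.trans (Nat.pow_le_pow_left (by omega) 2)
        exact_mod_cast h3
      rw [Real.log_pow] at h1
      push_cast at h1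
      linarith
    have hcmp : Real.log R ^ a ≤ 2 ^ |a| * Real.log (2 + (i : ℝ)) ^ a := rpow_comp a hl1 hb1 hb2
    have hpt : ∀ j ∈ range i, Real.log R ^ a / (4 * 2 ^ |a| * 2 ^ |a| * (i : ℝ) ^ 2) ≤
        hc (x - e ⟨i, j⟩) := by
      intro j hj
      rw [mem_range] at hj
      have hr := hrad ⟨i, j⟩ ((hSm _).2 ⟨⟨hi.1, hi.2⟩, hj⟩)
      have h1 := hM (x - e ⟨i, j⟩) (by rw [hr]; exact hmM.trans hi.1)
      rw [hr] at h1
      simp only at h1
      rw [div_le_iff₀ (by positivity)]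
      calc Real.log R ^ a ≤ 2 ^ |a| * Real.log (2 + (i : ℝ)) ^ a := hcmp
        _ ≤ 2 ^ |a| * (4 * 2 ^ |a| * (i : ℝ) ^ 2 * hc (x - e ⟨i, j⟩)) :=
            mul_le_mul_of_nonneg_left h1 h2a.le
        _ = _ := by ring
    have h3 := card_nsmul_le_sum (range i) (fun j => hc (x - e ⟨i, j⟩)) _ hpt
    rw [card_range, nsmul_eq_mul] at h3
    refine le_trans (le_of_eq ?_) h3
    field_simp
  calc 1 / (16 * 2 ^ |a| * 2 ^ |a|) * Real.log R ^ (a + 1)
      = 1 / (4 * 2 ^ |a| * 2 ^ |a|) * Real.log R ^ a * (1 / 4 * Real.log R) := by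
        rw [Real.rpow_add hlR, Real.rpow_one]
        field_simp
        ring
    _ ≤ 1 / (4 * 2 ^ |a| * 2 ^ |a|) * Real.log R ^ a * ∑ i ∈ Ico m (R + 1), 1 / (i : ℝ) := by
        have h5 : 0 < Real.log R ^ a := Real.rpow_pos_of_pos hlR a
        exact mul_le_mul_of_nonneg_left hharm (by positivity)
    _ = ∑ i ∈ Ico m (R + 1), 1 / (4 * 2 ^ |a| * 2 ^ |a|) * Real.log R ^ a * (1 / (i : ℝ)) := by
        rw [mul_sum]
    _ ≤ ∑ i ∈ Ico m (R + 1), ∑ j ∈ range i, hc (x - e ⟨i, j⟩) := sum_le_sum hrow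
    _ = ∑ p ∈ S, hc (x - e p) := by rw [hS, sum_sigma]
    _ = ∑ y ∈ S.image e, hc (x - y) := (sum_image (f := fun y => hc (x - y)) hinj).symm
    _ ≤ ∑ y ∈ box R, hc (x - y) := sum_le_sum_of_subset_of_nonneg hsub (fun _ _ _ => h0 _)

end Pool.Agent.P8H45.LPB
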